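import Pool.Agent.NGM.StmtsK

/-! MP_c602ad_al, NGM, row DIM (helper62): the space of harmonic Lipschitz functions has finite
dimension. -/

set_option autoImplicit false

namespace Pool.Agent.NGM.H62

open scoped Pointwise Classical BigOperators
open Filter Topology

universe u

variable {Q : Type u} [Group Q]

/-- the averaging operator as a linear map -/
noncomputable def avL (K : Finset Q) : Module.End ℝ (Q → ℝ) where
  toFun := av K
  map_add' := av_add K
  map_smul' := fun c f => av_smul K c f

theorem avL_pow (K : Finset Q) (n : ℕ) (f : Q → ℝ) : (av K)^[n] f = (avL K ^ n) f := by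
  rw [Module.End.pow_apply]
  rfl

theorem av_mono (K : Finset Q) : Monotone (av K) := by
  intro f g hfg x
  unfold av
  refine mul_le_mul_of_nonneg_left ?_ (by positivity)
  exact Finset.sum_le_sum fun s _ => hfg _

theorem av_const {K : Finset Q} (hK : GenSet K) (r : ℝ) : av K (fun _ => r) = fun _ => r := by
  have hc : (K.card : ℝ) ≠ 0 := by
    exact_mod_cast (Finset.card_pos.2 ⟨1, hK.one⟩).ne'
  funext x
  simp only [av, Finset.sum_const, nsmul_eq_mul]
  rw [inv_mul_cancel_left₀ hc]

theorem av_le {K : Finset Q} (hK : GenSet K) {H : Q → ℝ} {M : ℝ} {x : Q}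
    (h : ∀ s ∈ K, H (x * s) ≤ M) : av K H x ≤ M := by
  have hc : (K.card : ℝ) ≠ 0 := by
    exact_mod_cast (Finset.card_pos.2 ⟨1, hK.one⟩).ne'
  calc av K H x ≤ (K.card : ℝ)⁻¹ * ∑ s ∈ K, M := by
        unfold av
        refine mul_le_mul_of_nonneg_left ?_ (by positivity)
        exact Finset.sum_le_sum h
    _ = M := by
        rw [Finset.sum_const, nsmul_eq_mul, inv_mul_cancel_left₀ hc]

theorem it_const {K : Finset Q} (hK : GenSet K) (r : ℝ) (n : ℕ) :
    (av K)^[n] (fun _ => r) = fun _ => r := by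
  induction n with
  | zero => rfl
  | succ n ih => rw [Function.iterate_succ_apply, av_const hK, ih]

theorem it_le {K : Finset Q} (hK : GenSet K) {F : Q → ℝ} {c : ℝ}
    (h : ∀ x, av K (av K F) x ≤ F x + c) (n : ℕ) :
    (av K)^[2 * n] F 1 ≤ F 1 + c * n := by
  induction n with
  | zero => simp
  | succ n ih =>
    have e1 : (av K)^[2 * (n + 1)] F = (av K)^[2 * n] (av K (av K F)) := by
      rw [show 2 * (n + 1) = 2 * n + 2 by ring, Function.iterate_add_apply]
      rfl
    have e2 : av K (av K F) ≤ F + fun _ => c := h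
    have e3 := ((av_mono K).iterate (2 * n)) e2 (1 : Q)
    have e4 : (av K)^[2 * n] (F + fun _ => c) 1 = (av K)^[2 * n] F 1 + c := by
      rw [avL_pow, map_add, ← avL_pow, ← avL_pow, it_const hK]
      rfl
    rw [e4] at e3
    rw [e1]
    push_cast
    linarith

/-- the average of the square of a harmonic function -/
theorem av_sq {K : Finset Q} (hK : GenSet K) {f : Q → ℝ} (hf : av K (av K f) = f) (x : Q) :
    av K (av K (fun y => f y * f y)) x =
      av K (av K (fun y => (f y - f x) ^ 2)) x + f x * f x := by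
  have e1 : (fun y => f y * f y) =
      (fun y => (f y - f x) ^ 2) + (2 * f x) • f + fun _ => -(f x * f x) := by
    funext y
    simp only [Pi.add_apply, Pi.smul_apply, smul_eq_mul]
    ring
  rw [e1]
  simp only [av_add, av_smul, av_const hK, hf, Pi.add_apply, Pi.smul_apply, smul_eq_mul]
  ring

theorem exists_orth {V : Type u} [AddCommGroup V] [Module ℝ V] [Module.Finite ℝ V] (B : V → V → ℝ)
    (hs : ∀ f h, B f h = B h f) (ha : ∀ f h k, B (f + h) k = B f k + B h k)
    (hm : ∀ (r : ℝ) (f h : V), B (r • f) h = r * B f h) (hp : ∀ f, 0 ≤ B f f)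
    (hd : ∀ f, B f f = 0 → f = 0) :
    ∃ e : Fin (Module.finrank ℝ V) → V, ∀ i j, B (e i) (e j) = if i = j then 1 else 0 := by
  let core : InnerProductSpace.Core ℝ V :=
    { inner := fun x y => B x y
      conj_inner_symm := fun x y => by simpa using hs y x
      re_inner_nonneg := fun x => by simpa using hp x
      add_left := fun x y z => ha x y z
      smul_left := fun x y r => by simpa using hm r x y
      definite := fun x h => hd x h }
  let _ : NormedAddCommGroup V := core.toNormedAddCommGroup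
  let _ : InnerProductSpace ℝ V := InnerProductSpace.ofCore core.toCore
  refine ⟨stdOrthonormalBasis ℝ V, fun i j => ?_⟩
  have h := (stdOrthonormalBasis ℝ V).orthonormal
  rw [orthonormal_iff_ite] at h
  exact h i j

section main

variable {K : Finset Q} {hK : GenSet K} {U : Filter ℕ} {B : VV K → VV K → ℝ} {c : ℝ}

/-- the right action on the space -/
noncomputable def trV (hK : GenSet K) (x : Q) (f : VV K) : VV K := ⟨tr x f.1, tr_mem hK x f.2⟩

theorem trV_add (x : Q) (f h : VV K) : trV hK x (f + h) = trV hK x f + trV hK x h := by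
  apply Subtype.ext
  funext y
  show (f.1 (x * y) + h.1 (x * y)) - (f.1 x + h.1 x) =
    (f.1 (x * y) - f.1 x) + (h.1 (x * y) - h.1 x)
  ring

theorem polar (hF : Frm K hK U B c) (hs : ∀ f h, B f h = B h f)
    (ha : ∀ f h k, B (f + h) k = B f k + B h k) (x : Q) (f h : VV K) :
    B (trV hK x f) (trV hK x h) = B f h := by
  have e0 : ∀ f h : VV K, B (f + h) (f + h) = B f f + 2 * B f h + B h h := by
    intro f h
    rw [ha, hs f (f + h), hs h (f + h), ha, ha, hs h f]
    ring
  have e1 : B (trV hK x (f + h)) (trV hK x (f + h)) = B (f + h) (f + h) := hF.inv x (f + h)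
  have e2 : B (trV hK x f) (trV hK x f) = B f f := hF.inv x f
  have e3 : B (trV hK x h) (trV hK x h) = B h h := hF.inv x h
  rw [trV_add, e0, e0, e2, e3] at e1
  linarith

theorem orth_le (hF : Frm K hK U B c) (hs : ∀ f h, B f h = B h f)
    (ha : ∀ f h k, B (f + h) k = B f k + B h k)
    (hm : ∀ (r : ℝ) (f h : VV K), B (r • f) h = r * B f h) {k : ℕ} (e : Fin k → VV K)
    (he : ∀ i j, B (e i) (e j) = if i = j then 1 else 0) (s t : Q) (hsK : s ∈ K) (htK : t ∈ K) :
    ∑ i, (e i).1 (s * t) ^ 2 ≤ |c| := by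
  let BL : VV K → (VV K →ₗ[ℝ] ℝ) := fun h =>
    { toFun := fun f => B f h
      map_add' := fun f g => ha f g h
      map_smul' := fun r f => hm r f h }
  have hBL : ∀ f h, BL h f = B f h := fun f h => rfl
  obtain ⟨a, hae⟩ : ∃ a : Fin k → ℝ, ∀ i, a i = (e i).1 (s * t) := ⟨_, fun _ => rfl⟩
  obtain ⟨f, hf⟩ : ∃ f : VV K, f = ∑ i, a i • e i := ⟨_, rfl⟩
  have h1 : ∀ j, B f (e j) = a j := by
    intro j
    rw [← hBL, hf, map_sum]
    have : ∀ i, BL (e j) (a i • e i) = if i = j then a i else 0 := by
      intro i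
      rw [map_smul, hBL, he, smul_eq_mul]
      split_ifs <;> simp
    rw [Finset.sum_congr rfl fun i _ => this i]
    simp
  have h2 : B f f = ∑ i, a i ^ 2 := by
    have h3 : BL f f = ∑ i, a i ^ 2 := by
      conv_lhs => rw [hf]
      rw [map_sum]
      refine Finset.sum_congr rfl fun i _ => ?_
      rw [map_smul, ← hf, hBL, hs, h1, smul_eq_mul]
      ring
    exact h3
  have h3 : f.1 (s * t) = ∑ i, a i ^ 2 := by
    have h4 : f.1 = ∑ i, a i • (e i).1 := by
      rw [hf]
      simp
    rw [h4, Finset.sum_apply]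
    refine Finset.sum_congr rfl fun i _ => ?_
    rw [Pi.smul_apply, smul_eq_mul, ← hae]
    ring
  have h4 := hF.pos f s hsK t htK
  rw [h2, h3] at h4
  simp only [← hae]
  have h5 : 0 ≤ ∑ i, a i ^ 2 := Finset.sum_nonneg fun i _ => sq_nonneg _
  rcases h5.eq_or_lt with h6 | h6
  · rw [← h6]
    exact abs_nonneg c
  · have h7 : (∑ i, a i ^ 2) * (∑ i, a i ^ 2) ≤ |c| * (∑ i, a i ^ 2) := by
      rw [← sq]
      exact h4.trans (mul_le_mul_of_nonneg_right (le_abs_self c) h5)
    exact le_of_mul_le_mul_right h7 h6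

theorem card_le (hF : Frm K hK U B c) (hs : ∀ f h, B f h = B h f)
    (ha : ∀ f h k, B (f + h) k = B f k + B h k)
    (hm : ∀ (r : ℝ) (f h : VV K), B (r • f) h = r * B f h) {k : ℕ} (e : Fin k → VV K)
    (he : ∀ i j, B (e i) (e j) = if i = j then 1 else 0) : (k : ℝ) ≤ |c| := by
  obtain ⟨F, hFe⟩ : ∃ F : Q → ℝ, F = ∑ i, fun y => (e i).1 y * (e i).1 y := ⟨_, rfl⟩
  have hstep : ∀ x, av K (av K F) x ≤ F x + |c| := by
    intro x
    have e1 : av K (av K F) x =
        av K (av K (∑ i, fun y => ((e i).1 y - (e i).1 x) ^ 2)) x + F x := by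
      have l1 : ∀ G : Q → ℝ, av K (av K G) = (avL K ^ 2) G := by
        intro G
        rw [← avL_pow]
        rfl
      rw [l1, l1, hFe, map_sum, map_sum, Finset.sum_apply, Finset.sum_apply, Finset.sum_apply,
        ← Finset.sum_add_distrib]
      refine Finset.sum_congr rfl fun i _ => ?_
      rw [← l1, ← l1]
      exact av_sq hK (e i).2.2.1 x
    rw [e1, add_comm]
    refine add_le_add_right ?_ _
    refine av_le hK fun s hsK => av_le hK fun t htK => ?_
    have h1 := orth_le hF hs ha hm (fun i => trV hK x (e i))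
      (fun i j => by rw [polar hF hs ha, he]) s t hsK htK
    rw [Finset.sum_apply]
    have h2 : ∀ i, (trV hK x (e i)).1 (s * t) = (e i).1 (x * s * t) - (e i).1 x := by
      intro i
      show (e i).1 (x * (s * t)) - (e i).1 x = _
      rw [mul_assoc]
    simp only [h2] at h1
    exact h1
  have hF1 : F 1 = 0 := by
    rw [hFe, Finset.sum_apply]
    refine Finset.sum_eq_zero fun i _ => ?_
    rw [(e i).2.1, mul_zero]
  have hle : ∀ n : ℕ, (av K)^[2 * n] F 1 / n ≤ |c| := by
    intro n
    have h1 := it_le hK hstep n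
    rw [hF1, zero_add] at h1
    rcases Nat.eq_zero_or_pos n with h2 | h2
    · subst h2
      simp
    · rw [div_le_iff₀ (by exact_mod_cast h2)]
      exact h1
  have hlim : Tendsto (fun n : ℕ => (av K)^[2 * n] F 1 / n) U (𝓝 (∑ i, B (e i) (e i))) := by
    have h1 : (fun n : ℕ => (av K)^[2 * n] F 1 / n) = fun n : ℕ =>
        ∑ i, (av K)^[2 * n] (fun y => (e i).1 y * (e i).1 y) 1 / n := by
      funext n
      rw [avL_pow, hFe, map_sum, Finset.sum_apply, Finset.sum_div]
      refine Finset.sum_congr rfl fun i _ => ?_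
      rw [avL_pow]
    rw [h1]
    exact tendsto_finsetSum _ fun i _ => hF.lim (e i) (e i)
  have hsum : ∑ i, B (e i) (e i) = (k : ℝ) := by
    rw [Finset.sum_congr rfl fun i _ => he i i]
    simp
  rw [hsum] at hlim
  have := hF.ne
  exact le_of_tendsto hlim (Eventually.of_forall hle)

end main

theorem dim (hBil : BilStmt.{u}) : DimStmt.{u} := by
  intro Q _ K hK U B c hF
  obtain ⟨hs, ha, hm, hp, hd⟩ := hBil Q K hK U B c hF
  have hrank : Module.rank ℝ (VV K) ≤ (⌊|c|⌋₊ : ℕ) := by
    refine rank_le fun s hli => ?_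
    have hfin : Module.finrank ℝ (Submodule.span ℝ (s : Set (VV K))) = s.card :=
      finrank_span_finset_eq_card hli
    have : Module.Finite ℝ (Submodule.span ℝ (s : Set (VV K))) :=
      FiniteDimensional.span_finset ℝ s
    obtain ⟨e, he⟩ := exists_orth (V := Submodule.span ℝ (s : Set (VV K)))
      (fun f h => B f.1 h.1) (fun f h => hs _ _) (fun f h k => ha _ _ _) (fun r f h => hm _ _ _)
      (fun f => hp _) (fun f hf => Subtype.ext (hd _ hf))
    have h1 := card_le hF hs ha hm (fun i => (e i).1) (fun i j => he i j)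
    rw [hfin] at h1
    exact Nat.le_floor h1
  exact Module.rank_lt_aleph0_iff.1 (lt_of_le_of_lt hrank (Cardinal.natCast_lt_aleph0))

end Pool.Agent.NGM.H62
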